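import Pool.Agent.MP9a04dc.Main

/-!
# The inverse Turán number of the four-cycle

We prove `ex⁻¹(k, C₄) = (2√2 / (3√3) + o(1)) k^{3/2}`.

The upper bound says that every graph with `m` edges has a `C₄`-free subgraph with at least
`(3/2 - o(1)) m^{2/3}` edges.  The proof combines a random map to a polarity graph (sparse part),
linear programming duality and a weighted nibble (Frankl–Rödl, Pippenger, Kahn), proved here from
scratch in the helper files.
-/

set_option autoImplicit false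

namespace Pool.Agent.Results.MP_9a04dc_co.Asymptotic

open Finset Filter Topology

/-- The Turán number `ex(G, F)`: the largest number of edges in a subgraph of `G` containing no
copy of `F`. -/
noncomputable def turanNumber {V W : Type} (G : SimpleGraph V) (F : SimpleGraph W) : ℕ :=
  sSup {e : ℕ | ∃ H : SimpleGraph V, H ≤ G ∧ F.Free H ∧ H.edgeSet.ncard = e}

/-- The set of the numbers of edges of the finite graphs `G` with `ex(G, F) < k`. -/
def edgeCounts {W : Type} (k : ℕ) (F : SimpleGraph W) : Set ℕ :=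
  {m : ℕ | ∃ (V : Type) (_ : Finite V) (G : SimpleGraph V),
    turanNumber G F < k ∧ G.edgeSet.ncard = m}

/-- The inverse Turán number `ex⁻¹(k, F)`: the supremum of the numbers of edges of the finite
graphs `G` with `ex(G, F) < k`. -/
noncomputable def inverseTuranNumber {W : Type} (k : ℕ) (F : SimpleGraph W) : ℕ :=
  sSup (edgeCounts k F)

/-- The four-cycle. -/
abbrev C4 : SimpleGraph (Fin 4) := SimpleGraph.cycleGraph 4

section Proof

open Pool.Agent.MP9a04dc

lemma noC4_iff {V : Type} (H : SimpleGraph V) : C4.Free H ↔ NoC4 H := by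
  constructor
  · intro h a b c d hac hbd hab hbc hcd hda
    apply h
    refine ⟨⟨⟨![a, b, c, d], ?_⟩, ?_⟩⟩
    · intro i j hij
      have hij' : (SimpleGraph.cycleGraph 4).Adj i j := hij
      clear hij
      fin_cases i <;> fin_cases j <;>
        first
        | exact absurd hij' (by decide)
        | exact hab
        | exact hab.symm
        | exact hbc
        | exact hbc.symm
        | exact hcd
        | exact hcd.symm
        | exact hda
        | exact hda.symm
    · intro i j hij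
      have h1 := hab.ne
      have h2 := hbc.ne
      have h3 := hcd.ne
      have h4 := hda.ne
      fin_cases i <;> fin_cases j <;> simp_all
  · rintro h ⟨f⟩
    have hinj := f.injective
    have hadj : ∀ i j : Fin 4, (SimpleGraph.cycleGraph 4).Adj i j → H.Adj (f i) (f j) :=
      fun i j hij => f.toHom.map_rel hij
    refine h (f 0) (f 1) (f 2) (f 3) (fun e => ?_) (fun e => ?_)
      (hadj _ _ (by decide)) (hadj _ _ (by decide)) (hadj _ _ (by decide)) (hadj _ _ (by decide))
    · exact absurd (hinj e) (by decide)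
    · exact absurd (hinj e) (by decide)

lemma le_turanNumber {V : Type} [Finite V] (G H : SimpleGraph V) (hH : H ≤ G) (h : C4.Free H) :
    H.edgeSet.ncard ≤ turanNumber G C4 := by
  refine le_csSup ⟨G.edgeSet.ncard, ?_⟩ ⟨H, hH, h, rfl⟩
  rintro e ⟨H', hH', _, rfl⟩
  exact Set.ncard_le_ncard (SimpleGraph.edgeSet_mono hH') (Set.toFinite _)

/-- The main upper bound, for a single graph. -/
lemma edge_bound (ε : ℝ) (hε : 0 < ε) (hε1 : ε ≤ 1) : ∃ m₀ : ℝ, 0 < m₀ ∧ ∀ (k m : ℕ),
    m ∈ edgeCounts k C4 → (m : ℝ) ≤ max m₀ ((k : ℝ) ^ (3 / 2 : ℝ) / (3 / 2 - ε) ^ (3 / 2 : ℝ)) := by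
  obtain ⟨M₀, hM₀⟩ := main_aux ε hε hε1
  refine ⟨(max M₀ 1) ^ 3, by positivity, ?_⟩
  rintro k m ⟨V, _, G, hG, rfl⟩
  have : Fintype V := Fintype.ofFinite V
  by_cases hm : ((max M₀ 1) ^ 3 : ℝ) < (G.edgeSet.ncard : ℝ)
  · refine le_max_of_le_right ?_
    set m : ℝ := (G.edgeSet.ncard : ℝ) with hmdef
    have hm0 : 0 ≤ m := by positivity
    set M : ℝ := m ^ (1 / 3 : ℝ) with hM
    have hM3 : M ^ 3 = m := by
      rw [hM, ← Real.rpow_natCast, ← Real.rpow_mul hm0]
      norm_num
    have hMpos : 0 ≤ M := Real.rpow_nonneg hm0 _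
    have hMM : max M₀ 1 ≤ M := by
      have h1 : (max M₀ 1) ^ 3 ≤ M ^ 3 := by rw [hM3]; exact hm.le
      exact le_of_pow_le_pow_left₀ (by norm_num) hMpos h1
    obtain ⟨H, hHG, hH, hHe⟩ := hM₀ M ((le_max_left _ _).trans hMM) V G hM3.symm
    have h1 := le_turanNumber G H hHG ((noC4_iff H).2 hH)
    have h2 : (H.edgeSet.ncard : ℝ) ≤ k := by exact_mod_cast (h1.trans hG.le)
    have h3 : (3 / 2 - ε) * M ^ 2 ≤ k := hHe.trans h2
    have h4 : 0 < 3 / 2 - ε := by linarith
    have h5 : M ^ 2 ≤ k / (3 / 2 - ε) := by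
      rw [le_div_iff₀ h4]
      linarith
    have h6 : (M ^ 2) ^ (3 / 2 : ℝ) = m := by
      rw [← Real.rpow_natCast M 2, ← Real.rpow_mul hMpos]
      norm_num
      exact_mod_cast hM3
    rw [← Real.div_rpow (by positivity) h4.le, ← h6]
    exact Real.rpow_le_rpow (by positivity) h5 (by norm_num)
  · exact le_max_of_le_left (not_lt.1 hm)

lemma bddAbove_edgeCounts (k : ℕ) : BddAbove (edgeCounts k C4) := by
  obtain ⟨m₀, hm₀, h⟩ := edge_bound 1 one_pos le_rfl
  refine ⟨⌈max m₀ ((k : ℝ) ^ (3 / 2 : ℝ) / (3 / 2 - 1) ^ (3 / 2 : ℝ))⌉₊, ?_⟩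
  intro m hm
  have := (h k m hm).trans (Nat.le_ceil _)
  exact_mod_cast this

/-- The complete bipartite graph with parts of sizes `a` and `b` has no `C₄`-free subgraph with
more than `b + a (a - 1) / 2` edges. -/
lemma bipartite_bound (a b : ℕ) (H : SimpleGraph (Fin a ⊕ Fin b))
    (hH : H ≤ completeBipartiteGraph (Fin a) (Fin b)) (hno : NoC4 H) :
    H.edgeSet.ncard ≤ b + a.choose 2 := by
  classical
  set N : Fin b → Finset (Fin a) := fun y => univ.filter fun x => H.Adj (Sum.inr y) (Sum.inl x)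
    with hN
  have h1 : ∀ x x' : Fin a, ¬ H.Adj (Sum.inl x) (Sum.inl x') := by
    intro x x' h
    have := hH h
    simp [completeBipartiteGraph] at this
  have h2 : ∀ y y' : Fin b, ¬ H.Adj (Sum.inr y) (Sum.inr y') := by
    intro y y' h
    have := hH h
    simp [completeBipartiteGraph] at this
  have h3 : arcs H = 2 * ∑ y, ((N y).card : ℝ) := by
    unfold arcs
    rw [Fintype.sum_sum_type]
    simp only [Fintype.sum_sum_type, h1, h2, if_false, sum_const_zero, add_zero, zero_add]
    have h4 : ∑ y, ∑ x, (if H.Adj (Sum.inr y) (Sum.inl x) then (1 : ℝ) else 0)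
        = ∑ y, ((N y).card : ℝ) := by
      refine sum_congr rfl fun y _ => ?_
      rw [hN]
      simp
    have h5 : ∑ x, ∑ y, (if H.Adj (Sum.inl x) (Sum.inr y) then (1 : ℝ) else 0)
        = ∑ y, ((N y).card : ℝ) := by
      rw [← h4, sum_comm]
      refine sum_congr rfl fun y _ => sum_congr rfl fun x _ => ?_
      rw [if_congr (H.adj_comm _ _) rfl rfl]
    rw [h4, h5]
    ring
  rw [arcs_eq] at h3
  have h4 : H.edgeSet.ncard = ∑ y, (N y).card := by
    have : (H.edgeSet.ncard : ℝ) = ∑ y, ((N y).card : ℝ) := by linarith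
    exact_mod_cast this
  rw [h4]
  have h5 : ∑ y, ((N y).card.choose 2) ≤ a.choose 2 := by
    have h6 : ∑ y, ((N y).card.choose 2)
        = ((univ : Finset (Fin b)).biUnion fun y => (N y).powersetCard 2).card := by
      rw [card_biUnion]
      · exact sum_congr rfl fun y _ => (card_powersetCard 2 _).symm
      · intro y _ y' _ hyy
        change Disjoint ((N y).powersetCard 2) ((N y').powersetCard 2)
        rw [Finset.disjoint_left]
        intro e he he'
        rw [mem_powersetCard] at he he'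
        obtain ⟨u, v, huv, rfl⟩ := card_eq_two.1 he.2
        have k1 : H.Adj (Sum.inr y) (Sum.inl u) := (mem_filter.1 (he.1 (by simp))).2
        have k2 : H.Adj (Sum.inr y) (Sum.inl v) := (mem_filter.1 (he.1 (by simp))).2
        have k3 : H.Adj (Sum.inr y') (Sum.inl u) := (mem_filter.1 (he'.1 (by simp))).2
        have k4 : H.Adj (Sum.inr y') (Sum.inl v) := (mem_filter.1 (he'.1 (by simp))).2
        exact hno (Sum.inr y) (Sum.inl u) (Sum.inr y') (Sum.inl v)
          (fun h => hyy (Sum.inr_injective h)) (fun h => huv (Sum.inl_injective h))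
          k1 k3.symm k4 k2.symm
    rw [h6]
    calc ((univ : Finset (Fin b)).biUnion fun y => (N y).powersetCard 2).card
        ≤ ((univ : Finset (Fin a)).powersetCard 2).card := by
          refine card_le_card ?_
          intro e he
          obtain ⟨y, _, hy⟩ := mem_biUnion.1 he
          rw [mem_powersetCard] at hy ⊢
          exact ⟨subset_univ _, hy.2⟩
      _ = a.choose 2 := by rw [card_powersetCard, card_univ, Fintype.card_fin]
  have h6 : ∀ d : ℕ, d ≤ 1 + d.choose 2 := by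
    intro d
    induction d with
    | zero => simp
    | succ d ih =>
      rw [Nat.choose_succ_succ' d 1, Nat.choose_one_right]
      rcases Nat.eq_zero_or_pos d with h | h
      · subst h; simp
      · omega
  calc ∑ y, (N y).card ≤ ∑ y, (1 + (N y).card.choose 2) := sum_le_sum fun y _ => h6 _
    _ = b + ∑ y, (N y).card.choose 2 := by simp [sum_add_distrib]
    _ ≤ b + a.choose 2 := Nat.add_le_add_left h5 b

lemma cube_mem_edgeCounts (k a : ℕ) (ha : 1 ≤ a) (hak : 3 * a ^ 2 ≤ 2 * k) :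
    a ^ 3 ∈ edgeCounts k C4 := by
  classical
  refine ⟨Fin a ⊕ Fin (a ^ 2), inferInstance, completeBipartiteGraph (Fin a) (Fin (a ^ 2)), ?_, ?_⟩
  · have hch : a.choose 2 * 2 = a * (a - 1) := by
      rw [Nat.choose_two_right]
      exact Nat.div_mul_cancel (Nat.even_mul_pred_self a).two_dvd
    have hk : a ^ 2 + a.choose 2 < k := by
      have h1 : a * (a - 1) < a ^ 2 := by
        rw [sq]
        exact Nat.mul_lt_mul_of_pos_left (by omega) ha
      omega
    refine lt_of_le_of_lt ?_ hk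
    refine csSup_le ⟨_, ⊥, bot_le, ?_, rfl⟩ ?_
    · rw [noC4_iff]
      intro p q r s _ _ h
      exact absurd h (by simp)
    · rintro e ⟨H, hH, hfree, rfl⟩
      exact bipartite_bound a (a ^ 2) H hH ((noC4_iff H).1 hfree)
  · have h1 := arcs_eq (completeBipartiteGraph (Fin a) (Fin (a ^ 2)))
    have h2 : arcs (completeBipartiteGraph (Fin a) (Fin (a ^ 2))) = 2 * (a : ℝ) ^ 3 := by
      unfold arcs
      simp only [Fintype.sum_sum_type, completeBipartiteGraph]
      simp
      ring
    have h3 : ((completeBipartiteGraph (Fin a) (Fin (a ^ 2))).edgeSet.ncard : ℝ)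
        = ((a ^ 3 : ℕ) : ℝ) := by
      push_cast
      linarith
    exact_mod_cast h3

/-- The leading constant. -/
lemma const_eq : ((2 : ℝ) / 3) ^ (3 / 2 : ℝ) = 2 * √2 / (3 * √3) := by
  rw [Real.div_rpow (by norm_num) (by norm_num)]
  have h : ∀ x : ℝ, 0 ≤ x → x ^ (3 / 2 : ℝ) = x * √x := by
    intro x hx
    rw [Real.sqrt_eq_rpow, show (3 / 2 : ℝ) = 1 + 1 / 2 by norm_num,
      Real.rpow_add' hx (by norm_num), Real.rpow_one]
  rw [h 2 (by norm_num), h 3 (by norm_num)]

end Proof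

/-- **The inverse Turán number of the four-cycle.**  The supremum defining `ex⁻¹(k, C₄)` is
finite, and `ex⁻¹(k, C₄) / k^{3/2}` tends to `2√2 / (3√3)`. -/
theorem result :
    (∀ k : ℕ, BddAbove (edgeCounts k C4)) ∧
    Tendsto (fun k : ℕ => (inverseTuranNumber k C4 : ℝ) / (k : ℝ) ^ (3 / 2 : ℝ)) atTop
      (𝓝 (2 * √2 / (3 * √3))) := by
  refine ⟨bddAbove_edgeCounts, ?_⟩
  rw [← const_eq]
  have hkpow : Tendsto (fun k : ℕ => (k : ℝ) ^ (3 / 2 : ℝ)) atTop atTop :=
    (tendsto_rpow_atTop (by norm_num)).comp tendsto_natCast_atTop_atTop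
  refine tendsto_order.2 ⟨?_, ?_⟩
  · -- lower bound
    intro c' hc'
    set α : ℝ := √(2 / 3) with hα
    have hα0 : 0 ≤ α := Real.sqrt_nonneg _
    have hα2 : α ^ 2 = 2 / 3 := Real.sq_sqrt (by norm_num)
    have hα3 : α ^ 3 = ((2 : ℝ) / 3) ^ (3 / 2 : ℝ) := by
      rw [hα, Real.sqrt_eq_rpow, ← Real.rpow_natCast, ← Real.rpow_mul (by norm_num)]
      norm_num
    have hsq : Tendsto (fun k : ℕ => √(k : ℝ)) atTop atTop :=
      Real.tendsto_sqrt_atTop.comp tendsto_natCast_atTop_atTop
    have h1 : Tendsto (fun k : ℕ => (⌊α * √(k : ℝ)⌋₊ : ℝ) / √(k : ℝ)) atTop (𝓝 α) :=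
      (tendsto_nat_floor_mul_div_atTop hα0).comp hsq
    have h2 : Tendsto (fun k : ℕ => ((⌊α * √(k : ℝ)⌋₊ : ℝ) / √(k : ℝ)) ^ 3) atTop (𝓝 (α ^ 3)) :=
      h1.pow 3
    rw [hα3] at h2
    filter_upwards [h2.eventually_const_lt hc', hsq.eventually_ge_atTop (1 / α),
      eventually_ge_atTop 1] with k hk1 hk2 hk3
    refine hk1.trans_le ?_
    have hk0 : (0 : ℝ) < k := by exact_mod_cast hk3
    have hαpos : 0 < α := Real.sqrt_pos.2 (by norm_num)
    set a : ℕ := ⌊α * √(k : ℝ)⌋₊ with ha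
    have ha1 : 1 ≤ a := by
      rw [ha]
      apply Nat.le_floor
      rw [div_le_iff₀ hαpos] at hk2
      push_cast
      linarith
    have ha2 : (a : ℝ) ≤ α * √(k : ℝ) := Nat.floor_le (by positivity)
    have ha3 : 3 * a ^ 2 ≤ 2 * k := by
      have h4 : (a : ℝ) ^ 2 ≤ (α * √(k : ℝ)) ^ 2 := pow_le_pow_left₀ (by positivity) ha2 2
      rw [mul_pow, hα2, Real.sq_sqrt hk0.le] at h4
      have h5 : (3 * a ^ 2 : ℝ) ≤ 2 * k := by linarith
      exact_mod_cast h5
    have h6 : a ^ 3 ≤ inverseTuranNumber k C4 :=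
      le_csSup (bddAbove_edgeCounts k) (cube_mem_edgeCounts k a ha1 ha3)
    have h7 : (k : ℝ) ^ (3 / 2 : ℝ) = √(k : ℝ) ^ 3 := by
      rw [Real.sqrt_eq_rpow, ← Real.rpow_natCast, ← Real.rpow_mul hk0.le]
      norm_num
    rw [div_pow, h7]
    refine div_le_div_of_nonneg_right ?_ (by positivity)
    exact_mod_cast h6
  · -- upper bound
    intro c' hc'
    have hcont : Tendsto (fun ε : ℝ => 1 / (3 / 2 - ε) ^ (3 / 2 : ℝ)) (𝓝 0)
        (𝓝 (((2 : ℝ) / 3) ^ (3 / 2 : ℝ))) := by
      have h1 : ContinuousAt (fun ε : ℝ => 1 / (3 / 2 - ε) ^ (3 / 2 : ℝ)) 0 := by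
        refine ContinuousAt.div continuousAt_const ?_ ?_
        · refine ContinuousAt.rpow_const (by fun_prop) (Or.inr (by norm_num))
        · have : (0 : ℝ) < (3 / 2 - 0) ^ (3 / 2 : ℝ) := by
            apply Real.rpow_pos_of_pos; norm_num
          exact this.ne'
      have h2 : (1 : ℝ) / (3 / 2 - 0) ^ (3 / 2 : ℝ) = ((2 : ℝ) / 3) ^ (3 / 2 : ℝ) := by
        rw [sub_zero, one_div, ← Real.inv_rpow (by norm_num)]
        norm_num
      have h3 := h1.tendsto
      rw [h2] at h3
      exact h3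
    have h4 := (hcont.eventually_lt_const hc').filter_mono (nhdsWithin_le_nhds (s := Set.Ioi 0))
    have h5 : ∀ᶠ ε : ℝ in 𝓝[>] 0, ε ≤ 1 :=
      (eventually_le_nhds (show (0 : ℝ) < 1 by norm_num)).filter_mono nhdsWithin_le_nhds
    obtain ⟨ε, ⟨hε1, hε2⟩, hε0⟩ := ((h4.and h5).and self_mem_nhdsWithin).exists
    obtain ⟨m₀, hm₀, hb⟩ := edge_bound ε hε0 hε2
    have hcpos : 0 < c' := lt_trans (Real.rpow_pos_of_pos (by norm_num) _) hc'
    filter_upwards [hkpow.eventually_gt_atTop (m₀ / c'), eventually_ge_atTop 1] with k hk1 hk2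
    have hk0 : (0 : ℝ) < k := by exact_mod_cast hk2
    have hkp : (0 : ℝ) < (k : ℝ) ^ (3 / 2 : ℝ) := Real.rpow_pos_of_pos hk0 _
    have hne : (edgeCounts k C4).Nonempty := by
      refine ⟨0, PEmpty, inferInstance, ⊥, ?_, ?_⟩
      · refine lt_of_le_of_lt ?_ (show 0 < k by omega)
        refine csSup_le ⟨_, ⊥, bot_le, ?_, rfl⟩ ?_
        · rw [noC4_iff]
          intro p
          exact p.elim
        · rintro e ⟨H, hH, -, rfl⟩
          simp [le_bot_iff.1 hH]
      · simp
    have hmem : inverseTuranNumber k C4 ∈ edgeCounts k C4 :=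
      Nat.sSup_mem hne (bddAbove_edgeCounts k)
    have h6 := hb k _ hmem
    rw [div_lt_iff₀ hkp]
    refine lt_of_le_of_lt h6 (max_lt ?_ ?_)
    · rw [div_lt_iff₀ hcpos] at hk1
      linarith
    · rw [div_eq_mul_one_div, mul_comm]
      exact mul_lt_mul_of_pos_right hε1 hkp

end Pool.Agent.Results.MP_9a04dc_co.Asymptotic
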